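import Pool.Agent.Helper28.HN.DEL

/-!
Project HN, row DBD: bounds for the derivations `w_k ∂/∂w_k` of the field `K`.
-/

set_option autoImplicit false

namespace Pool.Agent.Helper28.HN

open Pool.Agent.Helper71.JN Pool.Agent.Helper71.HN MvPolynomial
open Pool.Agent.Helper66.JN (eu eu_add eu_mul eu_C_mul eu_monomial eu_coeff eu_const nu_mon_le nu_eu)
open Pool.Agent.Helper47.JN (nz ev_ne ev_inj ev_mem ev_sum R_le_K K_form nu_sum_le nu_term)

section

variable {F Ω : Type} [Field F] [Field Ω] [Algebra F Ω] {I : Type} [Fintype I] {r : ℕ}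

/-- the value of a polynomial as an element of `K` -/
noncomputable def evK (D : SSF F Ω I r) (p : MvPolynomial (Fin r) F) : D.K :=
  ⟨D.ev p, R_le_K D _ (ev_mem D p)⟩

theorem del_ev (D : SSF F Ω I r) (δ : Fin r → D.K → D.K) (h : Del D δ) (k : Fin r)
    (p : MvPolynomial (Fin r) F) : δ k (evK D p) = evK D (eu k p) := by
  induction p using MvPolynomial.induction_on with
  | C c =>
    have h1 : evK D (C c) = algebraMap F D.K c := by
      apply Subtype.ext
      simp [evK, SSF.ev]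
    rw [h1, h.cst, eu_C]
    apply Subtype.ext
    simp [evK]
  | add p q hp hq =>
    have h1 : evK D (p + q) = evK D p + evK D q := by
      apply Subtype.ext
      simp [evK]
    rw [h1, (h.dv k).1, hp, hq, eu_add]
    apply Subtype.ext
    simp [evK]
  | mul_X p n hp =>
    have h1 : evK D (p * X n) = evK D p * evK D (X n) := by
      apply Subtype.ext
      simp [evK]
    have h2 : δ k (evK D (X n)) = evK D (eu k (X n)) := by
      rw [h.dw k n (evK D (X n)) (by simp [evK, SSF.ev]), eu_X]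
      by_cases hkn : k = n
      · rw [if_pos hkn, if_pos hkn]
      · rw [if_neg hkn, if_neg hkn]
        apply Subtype.ext
        simp [evK]
    rw [h1, (h.dv k).2, hp, h2, eu_mul]
    apply Subtype.ext
    simp only [evK, map_add, map_mul]
    change D.ev p * D.ev (eu k (X n)) + D.ev (X n) * D.ev (eu k p) = _
    ring

theorem del_val (D : SSF F Ω I r) (δ : Fin r → D.K → D.K) (h : Del D δ) (k : Fin r) (z : D.K)
    (p q : MvPolynomial (Fin r) F) (hq : q ≠ 0) (hz : (z : Ω) = D.ev p / D.ev q) :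
    ((δ k z : D.K) : Ω) = val D k p q := by
  have h1 : D.ev q ≠ 0 := ev_ne D q hq
  have h2 : evK D q * z = evK D p := by
    apply Subtype.ext
    change D.ev q * (z : Ω) = D.ev p
    rw [hz]
    field_simp
  have h3 := congrArg (δ k) h2
  rw [(h.dv k).2, del_ev D δ h, del_ev D δ h] at h3
  have h4 : D.ev q * ((δ k z : D.K) : Ω) + (z : Ω) * D.ev (eu k q) = D.ev (eu k p) :=
    congrArg (fun t : D.K => (t : Ω)) h3
  unfold val
  rw [eq_div_iff (pow_ne_zero 2 h1)]
  have h5 : (z : Ω) * D.ev q = D.ev p := by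
    rw [hz]
    field_simp
  linear_combination D.ev q * h4 - D.ev (eu k q) * h5

theorem nu_sub (D : SSF F Ω I r) (i : I) (x y : Ω) :
    D.nu i (x - y) ≤ max (D.nu i x) (D.nu i y) := by
  have h := D.ult i x (-y)
  rw [← sub_eq_add_neg, (D.nu i).map_neg] at h
  exact h

theorem nu_sum_lt (D : SSF F Ω I r) (i : I) (a : ℝ) (ha : 0 < a) {κ : Type} (s : Finset κ)
    (f : κ → Ω) (h : ∀ m ∈ s, D.nu i (f m) < a) : D.nu i (∑ m ∈ s, f m) < a := by
  classical
  induction s using Finset.induction_on with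
  | empty => simpa using ha
  | insert b s hb ih =>
    rw [Finset.sum_insert hb]
    exact lt_of_le_of_lt (D.ult i _ _) (max_lt (h b (Finset.mem_insert_self b s))
      (ih fun m hm => h m (Finset.mem_insert_of_mem hm)))

theorem val_nu (D : SSF F Ω I r) (i : I) (k : Fin r) (p q : MvPolynomial (Fin r) F) :
    D.nu i (D.ev (eu k p) * D.ev q - D.ev p * D.ev (eu k q)) ≤
      D.nu i (D.ev p) * D.nu i (D.ev q) := by
  refine (nu_sub D i _ _).trans (max_le ?_ ?_)
  · rw [map_mul]
    exact mul_le_mul_of_nonneg_right (nu_eu D i k p) ((D.nu i).nonneg _)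
  · rw [map_mul]
    exact mul_le_mul_of_nonneg_left (nu_eu D i k q) ((D.nu i).nonneg _)

/-- the terms of maximal size -/
theorem top_part (D : SSF F Ω I r) (i : I) (p : MvPolynomial (Fin r) F) (hp : p ≠ 0) :
    ∃ p₁ p₂ : MvPolynomial (Fin r) F, p = p₁ + p₂ ∧ D.nu i (D.ev p₁) = D.nu i (D.ev p) ∧
      D.nu i (D.ev p₂) < D.nu i (D.ev p) ∧
      ∀ n ∈ p₁.support, D.nu i (mon D.w (nz n)) = D.nu i (D.ev p) := by
  classical
  have hpos : 0 < D.nu i (D.ev p) := (D.nu i).pos (ev_ne D p hp)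
  let s := p.support.filter fun n => D.nu i (mon D.w (nz n)) = D.nu i (D.ev p)
  let t := p.support.filter fun n => ¬ D.nu i (mon D.w (nz n)) = D.nu i (D.ev p)
  have h0 : p = ∑ n ∈ s, monomial n (p.coeff n) + ∑ n ∈ t, monomial n (p.coeff n) := by
    rw [Finset.sum_filter_add_sum_filter_not]
    exact p.as_sum
  have h2 : D.nu i (D.ev (∑ n ∈ t, monomial n (p.coeff n))) < D.nu i (D.ev p) := by
    rw [map_sum]
    refine nu_sum_lt D i _ hpos _ _ fun n hn => ?_
    obtain ⟨hn1, hn2⟩ := Finset.mem_filter.1 hn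
    rw [Pool.Agent.Helper47.JN.ev_monomial, nu_term D i _ (mem_support_iff.1 hn1)]
    exact lt_of_le_of_ne (nu_mon_le D i p n hn1) hn2
  refine ⟨_, _, h0, ?_, h2, ?_⟩
  · have h3 : D.nu i (D.ev p) ≤ max (D.nu i (D.ev (∑ n ∈ s, monomial n (p.coeff n))))
        (D.nu i (D.ev (∑ n ∈ t, monomial n (p.coeff n)))) := by
      conv_lhs => rw [h0]
      rw [map_add]
      exact D.ult i _ _
    have h4 : D.nu i (D.ev (∑ n ∈ s, monomial n (p.coeff n))) ≤ D.nu i (D.ev p) := by
      rw [map_sum]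
      refine nu_sum_le D i _ hpos.le _ _ fun n hn => ?_
      obtain ⟨hn1, hn2⟩ := Finset.mem_filter.1 hn
      rw [Pool.Agent.Helper47.JN.ev_monomial, nu_term D i _ (mem_support_iff.1 hn1), hn2]
    rcases le_max_iff.1 h3 with h5 | h5
    · exact le_antisymm h4 h5
    · exact absurd h5 (not_le.2 h2)
  · intro n hn
    have h5 : n ∈ s := by
      by_contra hns
      apply mem_support_iff.1 hn
      rw [coeff_sum]
      refine Finset.sum_eq_zero fun m hm => ?_
      rw [coeff_monomial, if_neg]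
      rintro rfl
      exact hns hm
    exact (Finset.mem_filter.1 h5).2

theorem supp_eu (k : Fin r) (p : MvPolynomial (Fin r) F) (n : Fin r →₀ ℕ)
    (hn : n ∈ (eu k p).support) : n ∈ p.support := by
  rw [mem_support_iff, eu_coeff] at hn
  rw [mem_support_iff]
  exact right_ne_zero_of_mul hn

theorem nz_add (a b : Fin r →₀ ℕ) : nz (a + b) = nz a + nz b := by
  funext k
  simp [nz]

theorem nu_mul_mon (D : SSF F Ω I r) (i : I) (p q : MvPolynomial (Fin r) F) (x y : ℝ)
    (hp : ∀ n ∈ p.support, D.nu i (mon D.w (nz n)) = x)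
    (hq : ∀ n ∈ q.support, D.nu i (mon D.w (nz n)) = y) (n : Fin r →₀ ℕ)
    (hn : n ∈ (p * q).support) : D.nu i (mon D.w (nz n)) = x * y := by
  classical
  have h1 := MvPolynomial.support_mul p q hn
  obtain ⟨a, ha, b, hb, rfl⟩ := Finset.mem_add.1 h1
  rw [nz_add, Pool.Agent.Helper47.JN.mon_add D.w0, map_mul, hp a ha, hq b hb]

end

theorem DBD : ST_DBD := by
  intro F Ω _ _ _ _ I _ r D δ hδ
  classical
  have hF : CharZero F := (algebraMap F Ω).charZero
  have h1 : ∀ k i (z : D.K), D.nu i (δ k z : Ω) ≤ D.nu i (z : Ω) := by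
    intro k i z
    obtain ⟨p, q, hq, hz⟩ := K_form D z z.2
    have h0 : 0 < D.nu i (D.ev q) := (D.nu i).pos (ev_ne D q hq)
    rw [del_val D δ hδ k z p q hq hz, hz]
    unfold val
    rw [map_div₀, map_div₀, map_pow, div_le_div_iff₀ (pow_pos h0 2) h0]
    have h2 := val_nu D i k p q
    nlinarith
  refine ⟨h1, ?_⟩
  intro i z hz0 hz1
  by_contra hcon
  push Not at hcon
  apply hz1
  obtain ⟨p, q, hq, hz⟩ := K_form D z z.2
  have hp : p ≠ 0 := by
    rintro rfl
    rw [map_zero, zero_div] at hz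
    exact hz0 (Subtype.ext hz)
  have hP : 0 < D.nu i (D.ev p) := (D.nu i).pos (ev_ne D p hp)
  have hQ : 0 < D.nu i (D.ev q) := (D.nu i).pos (ev_ne D q hq)
  have hlt : ∀ k, D.nu i (D.ev (eu k p) * D.ev q - D.ev p * D.ev (eu k q)) <
      D.nu i (D.ev p) * D.nu i (D.ev q) := by
    intro k
    have h3 := lt_of_le_of_ne (h1 k i z) (hcon k)
    rw [del_val D δ hδ k z p q hq hz, hz] at h3
    unfold val at h3
    rw [map_div₀, map_div₀, map_pow, div_lt_div_iff₀ (pow_pos hQ 2) hQ] at h3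
    have h4 : D.nu i (D.ev (eu k p) * D.ev q - D.ev p * D.ev (eu k q)) * D.nu i (D.ev q) <
        (D.nu i (D.ev p) * D.nu i (D.ev q)) * D.nu i (D.ev q) := by
      calc _ < D.nu i (D.ev p) * D.nu i (D.ev q) ^ 2 := h3
        _ = _ := by ring
    exact lt_of_mul_lt_mul_right h4 hQ.le
  obtain ⟨p₁, p₂, ep, np1, np2, sp⟩ := top_part D i p hp
  obtain ⟨q₁, q₂, eq, nq1, nq2, sq⟩ := top_part D i q hq
  have hW : ∀ k, eu k p₁ * q₁ - p₁ * eu k q₁ = 0 := by
    intro k
    by_contra hne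
    obtain ⟨n, hn⟩ := MvPolynomial.support_nonempty.2 hne
    have hn1 : D.nu i (mon D.w (nz n)) = D.nu i (D.ev p) * D.nu i (D.ev q) := by
      have h5 := MvPolynomial.support_sub _ _ _ hn
      rcases Finset.mem_union.1 h5 with h6 | h6
      · exact nu_mul_mon D i _ _ _ _ (fun m hm => sp m (supp_eu k _ m hm)) sq n h6
      · exact nu_mul_mon D i _ _ _ _ sp (fun m hm => sq m (supp_eu k _ m hm)) n h6
    have hn2 := nu_mon_le D i _ n hn
    rw [hn1] at hn2
    have hdec : D.ev (eu k p₁ * q₁ - p₁ * eu k q₁) =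
        (D.ev (eu k p) * D.ev q - D.ev p * D.ev (eu k q)) -
          ((D.ev (eu k p₁) * D.ev q₂ + D.ev (eu k p₂) * D.ev q) -
            (D.ev p₁ * D.ev (eu k q₂) + D.ev p₂ * D.ev (eu k q))) := by
      rw [ep, eq]
      simp only [eu_add, map_add, map_mul, map_sub]
      ring
    rw [hdec] at hn2
    have n1 := nu_eu D i k p₁
    have n2 := nu_eu D i k p₂
    have n3 := nu_eu D i k q₂
    have n4 := nu_eu D i k q
    have l1 : D.nu i (D.ev (eu k p₁) * D.ev q₂) < D.nu i (D.ev p) * D.nu i (D.ev q) := by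
      rw [map_mul]
      calc D.nu i (D.ev (eu k p₁)) * D.nu i (D.ev q₂)
          ≤ D.nu i (D.ev p) * D.nu i (D.ev q₂) :=
            mul_le_mul_of_nonneg_right (n1.trans np1.le) ((D.nu i).nonneg _)
        _ < D.nu i (D.ev p) * D.nu i (D.ev q) := mul_lt_mul_of_pos_left nq2 hP
    have l2 : D.nu i (D.ev (eu k p₂) * D.ev q) < D.nu i (D.ev p) * D.nu i (D.ev q) := by
      rw [map_mul]
      exact mul_lt_mul_of_pos_right (lt_of_le_of_lt n2 np2) hQ
    have l3 : D.nu i (D.ev p₁ * D.ev (eu k q₂)) < D.nu i (D.ev p) * D.nu i (D.ev q) := by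
      rw [map_mul, np1]
      exact mul_lt_mul_of_pos_left (lt_of_le_of_lt n3 nq2) hP
    have l4 : D.nu i (D.ev p₂ * D.ev (eu k q)) < D.nu i (D.ev p) * D.nu i (D.ev q) := by
      rw [map_mul]
      calc D.nu i (D.ev p₂) * D.nu i (D.ev (eu k q))
          ≤ D.nu i (D.ev p₂) * D.nu i (D.ev q) :=
            mul_le_mul_of_nonneg_left n4 ((D.nu i).nonneg _)
        _ < D.nu i (D.ev p) * D.nu i (D.ev q) := mul_lt_mul_of_pos_right np2 hQ
    have l5 := lt_of_le_of_lt (D.ult i (D.ev (eu k p₁) * D.ev q₂) (D.ev (eu k p₂) * D.ev q))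
      (max_lt l1 l2)
    have l6 := lt_of_le_of_lt (D.ult i (D.ev p₁ * D.ev (eu k q₂)) (D.ev p₂ * D.ev (eu k q)))
      (max_lt l3 l4)
    have l7 := lt_of_le_of_lt (nu_sub D i _ _) (max_lt l5 l6)
    have l8 := lt_of_le_of_lt (nu_sub D i _ _) (max_lt (hlt k) l7)
    exact absurd hn2 (not_le.2 l8)
  have hq1 : q₁ ≠ 0 := by
    rintro rfl
    rw [map_zero, map_zero] at nq1
    exact hQ.ne nq1
  have hp1 : p₁ ≠ 0 := by
    rintro rfl
    rw [map_zero, map_zero] at np1
    exact hP.ne np1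
  obtain ⟨c, hc⟩ := eu_const p₁ q₁ hq1 fun k => by
    have := hW k
    linear_combination this
  have hc0 : c ≠ 0 := by
    rintro rfl
    rw [C_0, zero_mul] at hc
    exact hp1 hc
  have h6 : D.nu i (D.ev p) = D.nu i (D.ev q) := by
    rw [← np1, ← nq1, hc, map_mul]
    have : D.ev (C c) = algebraMap F Ω c := by simp [SSF.ev]
    rw [this, nu_term D i c hc0]
  rw [hz, map_div₀, h6]
  exact div_self hQ.ne'

end Pool.Agent.Helper28.HN
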