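import Pool.Agent.Helper71.HN.SheetH
import Pool.Agent.Helper66.JN.ZWa

/-!
Project HN, row DEL: the derivations `w_k ∂/∂w_k` of the field `K`.
-/

set_option autoImplicit false

namespace Pool.Agent.Helper28.HN

open Pool.Agent.Helper71.JN Pool.Agent.Helper71.HN MvPolynomial
open Pool.Agent.Helper66.JN (eu eu_add eu_mul eu_C_mul eu_monomial)

section

variable {F Ω : Type} [Field F] [Field Ω] [Algebra F Ω] {I : Type} [Fintype I] {r : ℕ}

theorem eu_C (k : Fin r) (c : F) : eu k (C c) = 0 := by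
  unfold eu
  rw [pderiv_C, mul_zero]

theorem eu_one (k : Fin r) : eu k (1 : MvPolynomial (Fin r) F) = 0 := eu_C k 1

theorem eu_X (k l : Fin r) : eu k (X l : MvPolynomial (Fin r) F) = if k = l then X l else 0 := by
  unfold eu
  by_cases h : k = l
  · subst h
    rw [pderiv_X_self, mul_one, if_pos rfl]
  · rw [pderiv_X_of_ne (Ne.symm h), mul_zero, if_neg h]

/-- the value of the derivation on a fraction -/
noncomputable def val (D : SSF F Ω I r) (k : Fin r) (p q : MvPolynomial (Fin r) F) : Ω :=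
  (D.ev (eu k p) * D.ev q - D.ev p * D.ev (eu k q)) / D.ev q ^ 2

theorem val_congr (D : SSF F Ω I r) (k : Fin r) (p q p' q' : MvPolynomial (Fin r) F)
    (hq : q ≠ 0) (hq' : q' ≠ 0) (h : D.ev p / D.ev q = D.ev p' / D.ev q') :
    val D k p q = val D k p' q' := by
  have h1 : D.ev q ≠ 0 := Pool.Agent.Helper47.JN.ev_ne D q hq
  have h2 : D.ev q' ≠ 0 := Pool.Agent.Helper47.JN.ev_ne D q' hq'
  have e0 : p * q' = p' * q := by
    apply Pool.Agent.Helper47.JN.ev_inj D
    rw [map_mul, map_mul]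
    exact (div_eq_div_iff h1 h2).1 h
  have e1 := congrArg D.ev (congrArg (eu k) e0)
  rw [eu_mul, eu_mul, map_add, map_add, map_mul, map_mul, map_mul, map_mul] at e1
  have e0' : D.ev p * D.ev q' = D.ev p' * D.ev q := by
    rw [← map_mul, ← map_mul, e0]
  unfold val
  rw [div_eq_div_iff (pow_ne_zero 2 h1) (pow_ne_zero 2 h2)]
  linear_combination (D.ev q * D.ev q') * e1 -
    (D.ev q' * D.ev (eu k q) + D.ev q * D.ev (eu k q')) * e0'

theorem val_mem (D : SSF F Ω I r) (k : Fin r) (p q : MvPolynomial (Fin r) F) :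
    val D k p q ∈ D.K := by
  have h := fun p => Pool.Agent.Helper47.JN.R_le_K D _ (Pool.Agent.Helper47.JN.ev_mem D p)
  unfold val
  exact D.K.div_mem (D.K.sub_mem (D.K.mul_mem (h _) (h _)) (D.K.mul_mem (h _) (h _)))
    (pow_mem (h _) 2)

theorem val_add (D : SSF F Ω I r) (k : Fin r) (p q p' q' : MvPolynomial (Fin r) F)
    (hq : q ≠ 0) (hq' : q' ≠ 0) :
    val D k (p * q' + p' * q) (q * q') = val D k p q + val D k p' q' := by
  have h1 : D.ev q ≠ 0 := Pool.Agent.Helper47.JN.ev_ne D q hq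
  have h2 : D.ev q' ≠ 0 := Pool.Agent.Helper47.JN.ev_ne D q' hq'
  unfold val
  simp only [eu_add, eu_mul, map_add, map_mul]
  field_simp
  ring

theorem val_mul (D : SSF F Ω I r) (k : Fin r) (p q p' q' : MvPolynomial (Fin r) F)
    (hq : q ≠ 0) (hq' : q' ≠ 0) :
    val D k (p * p') (q * q') =
      D.ev p / D.ev q * val D k p' q' + D.ev p' / D.ev q' * val D k p q := by
  have h1 : D.ev q ≠ 0 := Pool.Agent.Helper47.JN.ev_ne D q hq
  have h2 : D.ev q' ≠ 0 := Pool.Agent.Helper47.JN.ev_ne D q' hq'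
  unfold val
  simp only [eu_mul, map_add, map_mul]
  field_simp
  ring

end

theorem DEL : ST_DEL := by
  intro F Ω _ _ _ _ I _ r D
  have hK : ∀ z : D.K, ∃ p q : MvPolynomial (Fin r) F, q ≠ 0 ∧ (z : Ω) = D.ev p / D.ev q :=
    fun z => Pool.Agent.Helper47.JN.K_form D z z.2
  choose P Q hQ hz using hK
  let δ : Fin r → D.K → D.K := fun k z => ⟨val D k (P z) (Q z), val_mem D k _ _⟩
  have key : ∀ (k : Fin r) (z : D.K) (p q : MvPolynomial (Fin r) F), q ≠ 0 →
      (z : Ω) = D.ev p / D.ev q → ((δ k z : D.K) : Ω) = val D k p q := by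
    intro k z p q hq h
    exact val_congr D k _ _ _ _ (hQ z) hq ((hz z).symm.trans h)
  refine ⟨δ, ?_, ?_, ?_⟩
  · intro k
    constructor
    · intro a b
      apply Subtype.ext
      have h1 : D.ev (Q a) ≠ 0 := Pool.Agent.Helper47.JN.ev_ne D _ (hQ a)
      have h2 : D.ev (Q b) ≠ 0 := Pool.Agent.Helper47.JN.ev_ne D _ (hQ b)
      rw [key k (a + b) (P a * Q b + P b * Q a) (Q a * Q b) (mul_ne_zero (hQ a) (hQ b))
        (by
          change (a : Ω) + (b : Ω) = _
          rw [hz a, hz b, map_add, map_mul, map_mul, map_mul]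
          field_simp)]
      exact val_add D k _ _ _ _ (hQ a) (hQ b)
    · intro a b
      apply Subtype.ext
      have h1 : D.ev (Q a) ≠ 0 := Pool.Agent.Helper47.JN.ev_ne D _ (hQ a)
      have h2 : D.ev (Q b) ≠ 0 := Pool.Agent.Helper47.JN.ev_ne D _ (hQ b)
      rw [key k (a * b) (P a * P b) (Q a * Q b) (mul_ne_zero (hQ a) (hQ b))
        (by
          change (a : Ω) * (b : Ω) = _
          rw [hz a, hz b, map_mul, map_mul]
          field_simp)]
      rw [val_mul D k _ _ _ _ (hQ a) (hQ b), ← hz a, ← hz b]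
      rfl
  · intro k c
    apply Subtype.ext
    rw [key k _ (C c) 1 one_ne_zero (by
      rw [map_one, div_one]
      simp [SSF.ev])]
    unfold val
    rw [eu_C, eu_one]
    simp
  · intro k l z h
    apply Subtype.ext
    rw [key k z (X l) 1 one_ne_zero (by
      rw [map_one, div_one, h]
      simp [SSF.ev])]
    unfold val
    rw [eu_X, eu_one]
    by_cases hkl : k = l
    · rw [if_pos hkl, if_pos hkl, h]
      simp [SSF.ev]
    · rw [if_neg hkl, if_neg hkl]
      simp

end Pool.Agent.Helper28.HN
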