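import Pool.Agent.Helper71.HN.SheetZ
import Pool.Agent.Helper14.AbsHeight

/-! Project HZ, row EMB: the embeddings of `K` as restrictions of the conjugates of `ψ`. -/

set_option autoImplicit false

namespace Pool.Agent.Helper28.HZ

open Finset Pool.Agent.Helper71.HZ

theorem EMB : ST_EMB := by
  intro K M _ _ _ _ _ i ψ f
  classical
  let _ : Algebra K M := i.toAlgebra
  let e : (M ≃ₐ[ℚ] M) → (M →+* ℂ) := fun σ => ψ.comp (σ : M →+* M)
  have he : Function.Bijective e := by
    constructor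
    · intro σ τ h
      ext x
      exact ψ.injective (RingHom.congr_fun h x)
    · intro φ
      obtain ⟨σ, hσ⟩ := NumberField.ComplexEmbedding.exists_comp_symm_eq_of_comp_eq (k := ℚ)
        ψ φ (Subsingleton.elim _ _)
      exact ⟨σ.symm, hσ⟩
  have h1 : ∑ σ : M ≃ₐ[ℚ] M, f ((ψ.comp (σ : M →+* M)).comp i) =
      ∑ φ : M →+* ℂ, f (φ.comp i) :=
    Fintype.sum_bijective e he _ _ (fun _ => rfl)
  have h2 : ∑ φ : M →+* ℂ, f (φ.comp i) =
      (Module.finrank K M : ℝ) * ∑ τ : K →+* ℂ, f τ := by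
    rw [← Finset.sum_fiberwise (Finset.univ : Finset (M →+* ℂ))
      (fun φ => φ.comp (algebraMap K M)), mul_sum]
    apply Finset.sum_congr rfl
    intro τ _
    rw [Finset.sum_congr rfl (g := fun _ => f τ), Finset.sum_const,
      Pool.Agent.Helper14.AbsH.card_ext, nsmul_eq_mul]
    intro φ hφ
    rw [← (Finset.mem_filter.mp hφ).2]
    rfl
  have h3 : Fintype.card (M ≃ₐ[ℚ] M) = Module.finrank ℚ K * Module.finrank K M := by
    rw [← Nat.card_eq_fintype_card, IsGalois.card_aut_eq_finrank, Module.finrank_mul_finrank]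
  rw [h1, h2, h3]
  push_cast
  ring

end Pool.Agent.Helper28.HZ
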