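import Pool.Agent.Helper58.HN.TRH
import Pool.Agent.Helper71.HN.SheetE

/-! Project HE, row TRE (after `Helper28.HN.TRZ`): the contradiction, even degree, one place. -/

set_option autoImplicit false

namespace Pool.Agent.Helper28.HE

open Polynomial Finset Pool.Agent.Helper71.HN Pool.Agent.Helper71.JN Pool.Agent.Helper53.JN
  Pool.Agent.Helper47.JN Pool.Agent.Helper58.HN Pool.Agent.Helper71.HE

theorem tre_int (hLTR : ST_LTR) (hWPT : ST_WPTE) {F K L : Type} [Field F] [Field K] [Field L]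
    [CharZero K] [Algebra K L] [FiniteDimensional K L] (τ : F →+* K) (ν : AbsoluteValue K ℝ)
    (s : Prop) (δ : K → K) (Δ : L → L) (hU : Ul ν) (hδ : Dv δ) (hB : Bd ν s δ) (hΔ : Dv Δ)
    (hc : ∀ a, Δ (algebraMap K L a) = algebraMap K L (δ a))
    (h1 : ∀ c, c ≠ 0 → ν (τ c) = 1) (h0 : ∀ c, δ (τ c) = 0) (g : ℕ) (hg : 1 ≤ g) (f : F[X])
    (fm : f.Monic) (fd : f.natDegree = 2 * g + 2) (fs : f.Separable) (x y : L) (hy : y ≠ 0)
    (he : y ^ 2 = eval₂ ((algebraMap K L).comp τ) x f) :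
    ν (Algebra.trace K L (Δ x / y)) ≤ 1 ∧ (s → ν (Algebra.trace K L (Δ x / y)) < 1) := by
  obtain ⟨N, hN, v, ι, δ', T, hUv, hδ', hB', hι, hιδ, hσ, hσδ, -, htr⟩ :=
    hLTR K L ν s δ Δ hU hδ hB hΔ hc
  have key : ∀ σ ∈ T, v (σ (Δ x / y)) ≤ 1 ∧ (s → v (σ (Δ x / y)) < 1) := by
    intro σ hσT
    rw [map_div₀, ← hσδ σ hσT]
    refine hWPT F N (ι.comp τ) v s δ' g f (σ x) (σ y) hUv hδ' hB' ?_ ?_ hg fm fd fs ?_ ?_
    · intro c hc'
      rw [RingHom.comp_apply, hι]
      exact h1 c hc'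
    · intro c
      rw [RingHom.comp_apply, hιδ, h0, map_zero]
    · rw [← map_pow, he, hom_eval₂, eval_map]
      congr 1
      ext c
      simp only [RingHom.comp_apply]
      rw [hσ σ hσT]
    · rwa [Ne, map_eq_zero]
  rw [← hι, htr]
  exact ⟨trh_sum_le v hUv.1 _ _ 1 zero_le_one fun σ h => (key σ h).1,
    fun hs => trh_sum_lt v hUv.1 _ _ 1 one_pos fun σ h => (key σ h).2 hs⟩

theorem tre_near (hLTR : ST_LTR) (hNPT : ST_NPTE) {K L : Type} [Field K] [Field L]
    [CharZero K] [Algebra K L] [FiniteDimensional K L] (ν : AbsoluteValue K ℝ)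
    (δ : K → K) (Δ : L → L) (hU : Ul ν) (hδ : Dv δ) (hB : Bd ν False δ) (hΔ : Dv Δ)
    (hc : ∀ a, Δ (algebraMap K L a) = algebraMap K L (δ a)) (g : ℕ) (x y : L)
    (R e : K) (he : e = 1 ∨ e = -1) (lam : ℝ) (hlam : 0 < lam) (hR : ν R = Real.exp lam)
    (c₁ c₂ : ℝ) (hc₁ : 0 ≤ c₁) (hc₂ : 0 ≤ c₂)
    (hc₁' : c₁ < Real.exp lam) (hc₂' : c₂ < Real.exp ((g + 1) * lam))
    (h₁ : ∀ k : ℕ, ν ((minpoly K (x - algebraMap K L R)).coeff k) ≤
      c₁ ^ ((minpoly K (x - algebraMap K L R)).natDegree - k))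
    (h₂ : ∀ k : ℕ, ν ((minpoly K (y - algebraMap K L (e * R ^ (g + 1)))).coeff k) ≤
      c₂ ^ ((minpoly K (y - algebraMap K L (e * R ^ (g + 1)))).natDegree - k)) :
    ν (Algebra.trace K L (Δ x / y) -
      (Module.finrank K L : K) * (e * δ R / R ^ (g + 1))) < Real.exp (-(g * lam)) := by
  obtain ⟨N, hN, v, ι, δ', T, hUv, hδ', hB', hι, hιδ, hσ, hσδ, hcard, htr⟩ :=
    hLTR K L ν False δ Δ hU hδ hB hΔ hc
  have key : ∀ σ ∈ T, v (σ (Δ x / y) - ι (e * δ R / R ^ (g + 1))) <
      Real.exp (-(g * lam)) := by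
    intro σ hσT
    have e1 : v (σ x - ι R) < Real.exp lam := by
      refine lt_of_le_of_lt ?_ hc₁'
      have := trh_conj ν v ι σ hUv.1 hι (hσ σ hσT) _
        (Algebra.IsIntegral.isIntegral (x - algebraMap K L R)) c₁ hc₁ h₁
      rwa [map_sub, hσ σ hσT] at this
    have e2 : v (σ y - ι e * ι R ^ (g + 1)) < Real.exp ((g + 1) * lam) := by
      refine lt_of_le_of_lt ?_ hc₂'
      have := trh_conj ν v ι σ hUv.1 hι (hσ σ hσT) _
        (Algebra.IsIntegral.isIntegral (y - algebraMap K L (e * R ^ (g + 1)))) c₂ hc₂ h₂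
      rwa [map_sub, hσ σ hσT, map_mul, map_pow] at this
    have he' : ι e = 1 ∨ ι e = -1 := by
      rcases he with h | h
      · left; rw [h, map_one]
      · right; rw [h, map_neg, map_one]
    have e3 := hNPT N v False δ' g lam (σ x) (σ y) (ι R) (ι e) hUv hδ' hB' hlam he'
      (by rw [hι, hR]) e1 e2
    rw [hσδ σ hσT, hιδ] at e3
    have e4 : ι (e * δ R / R ^ (g + 1)) = ι e * ι (δ R) / ι R ^ (g + 1) := by
      simp only [map_div₀, map_mul, map_pow]
    rw [e4, map_div₀]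
    exact e3
  rw [← hι, map_sub, htr, map_mul, map_natCast, ← hcard, ← nsmul_eq_mul, ← Finset.sum_const,
    ← Finset.sum_sub_distrib]
  exact trh_sum_lt v hUv.1 _ _ _ (Real.exp_pos _) key

/-- `v b = v a` if `a - b` is smaller than `a` -/
theorem tre_eq {N : Type} [Field N] (v : AbsoluteValue N ℝ)
    (hv : ∀ a b, v (a + b) ≤ max (v a) (v b)) (a b : N) (h : v (a - b) < v a) : v b = v a := by
  apply le_antisymm
  · have h1 := hv a (-(a - b))
    have e : a + -(a - b) = b := by ring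
    rw [e, AbsoluteValue.map_neg] at h1
    exact h1.trans (max_le le_rfl h.le)
  · by_contra hcon
    push Not at hcon
    have h1 := hv b (a - b)
    have e : b + (a - b) = a := by ring
    rw [e] at h1
    exact absurd h1 (not_le.2 (max_lt hcon h))

theorem TRE (hDEX : ST_DEX) (hLTR : ST_LTR) (hDEL : ST_DEL) (hDBD : ST_DBD) (hPIV : ST_PIV)
    (hPRQ : ST_PRQ) (hRK : ST_RK) (hWPT : ST_WPTE) (hNPT : ST_NPTE) : ST_TRE := by
  classical
  intro F Ω _ _ _ _ I _ r D g f x y i₀ R H hx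
  have hcK : CharZero D.K := (algebraMap D.K Ω).charZero
  have hcF : CharZero F := (algebraMap F Ω).charZero
  set lam : ℝ := Real.log (D.nu i₀ x) with hlamd
  have hlam : 0 < lam := Real.log_pos H.x1
  have hxs : D.nu i₀ x = Real.exp lam := (Real.exp_log (zero_lt_one.trans H.x1)).symm
  have hRs : D.nu i₀ R = Real.exp lam := by
    rw [← hxs]
    exact tre_eq (D.nu i₀) (D.ult i₀) x R H.xR
  have hRpow : ∀ n : ℕ, D.nu i₀ (R ^ n) = Real.exp (n * lam) := by
    intro n
    rw [map_pow, hRs, ← Real.exp_nat_mul]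
  have hxpow : ∀ n : ℕ, D.nu i₀ (x ^ n) = Real.exp (n * lam) := by
    intro n
    rw [map_pow, hxs, ← Real.exp_nat_mul]
  have hRpow' : D.nu i₀ (R ^ (g + 1)) = Real.exp ((g + 1) * lam) := by
    rw [hRpow]
    push_cast
    rfl
  have hxpow' : D.nu i₀ (x ^ (g + 1)) = Real.exp ((g + 1) * lam) := by
    rw [hxpow]
    push_cast
    rfl
  -- the size of `f x - x ^ (2 g + 2)`
  have hfx : D.nu i₀ (aeval x f - x ^ (2 * g + 2)) < Real.exp ((2 * g + 2) * lam) := by
    rw [aeval_eq_sum_range, H.fd, Finset.sum_range_succ]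
    have e1 : f.coeff (2 * g + 2) = 1 := by
      have := H.fm.coeff_natDegree
      rwa [H.fd] at this
    rw [e1, one_smul, add_sub_cancel_right]
    apply trh_sum_lt (D.nu i₀) (D.ult i₀) _ _ _ (Real.exp_pos _)
    intro k hk
    have hk' : k < 2 * g + 2 := Finset.mem_range.1 hk
    rw [Algebra.smul_def, map_mul, hxpow]
    have h1 : D.nu i₀ (algebraMap F Ω (f.coeff k)) ≤ 1 := by
      by_cases h : f.coeff k = 0
      · rw [h, map_zero, map_zero]
        exact zero_le_one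
      · exact (D.F1 i₀ _ h).le
    calc D.nu i₀ (algebraMap F Ω (f.coeff k)) * Real.exp (k * lam)
        ≤ 1 * Real.exp (k * lam) := mul_le_mul_of_nonneg_right h1 (Real.exp_pos _).le
      _ < Real.exp ((2 * g + 2) * lam) := by
        rw [one_mul]
        apply Real.exp_lt_exp.2
        have : (k : ℝ) < 2 * g + 2 := by exact_mod_cast hk'
        exact mul_lt_mul_of_pos_right this hlam
  -- the sign
  have hsg : ∃ e : D.K, (e = 1 ∨ e = -1) ∧
      D.nu i₀ (y - (e : Ω) * x ^ (g + 1)) < Real.exp ((g + 1) * lam) := by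
    by_contra hcon
    push Not at hcon
    have h1 := hcon 1 (Or.inl rfl)
    have h2 := hcon (-1) (Or.inr rfl)
    have e1 : ((1 : D.K) : Ω) = 1 := rfl
    have e2 : ((-1 : D.K) : Ω) = -1 := by push_cast; rfl
    rw [e1] at h1
    rw [e2] at h2
    have h3 : (y - 1 * x ^ (g + 1)) * (y - -1 * x ^ (g + 1)) = aeval x f - x ^ (2 * g + 2) := by
      rw [← H.cu]
      ring
    have h4 : Real.exp ((2 * g + 2) * lam) ≤ D.nu i₀ (aeval x f - x ^ (2 * g + 2)) := by
      rw [← h3, map_mul]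
      calc Real.exp ((2 * g + 2) * lam) = Real.exp ((g + 1) * lam) * Real.exp ((g + 1) * lam) := by
            rw [← Real.exp_add]; ring_nf
        _ ≤ _ := mul_le_mul h1 h2 (Real.exp_pos _).le ((D.nu i₀).nonneg _)
    exact absurd hfx (not_lt.2 h4)
  obtain ⟨e, he, hey⟩ := hsg
  have heΩ : (e : Ω) = 1 ∨ (e : Ω) = -1 := by
    rcases he with h | h
    · left; rw [h]; rfl
    · right; rw [h]; push_cast; rfl
  have hen : D.nu i₀ (e : Ω) = 1 := by
    rcases heΩ with h | h
    · rw [h, map_one]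
    · rw [h, AbsoluteValue.map_neg, map_one]
  have hxR : D.nu i₀ (x ^ (g + 1) - R ^ (g + 1)) < Real.exp ((g + 1) * lam) := by
    rw [← (Commute.all x R).mul_geom_sum₂, map_mul]
    have h1 : D.nu i₀ (∑ i ∈ range (g + 1), x ^ i * R ^ (g + 1 - 1 - i)) ≤
        Real.exp (g * lam) := by
      apply trh_sum_le (D.nu i₀) (D.ult i₀) _ _ _ (Real.exp_pos _).le
      intro k hk
      have hk' : k < g + 1 := Finset.mem_range.1 hk
      rw [map_mul, hxpow, hRpow, ← Real.exp_add]
      apply le_of_eq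
      congr 1
      have e1 : ((g + 1 - 1 - k : ℕ) : ℝ) = (g : ℝ) - k := by
        rw [Nat.add_sub_cancel, Nat.cast_sub (by omega)]
      rw [e1]
      ring
    calc D.nu i₀ (x - R) * D.nu i₀ (∑ i ∈ range (g + 1), x ^ i * R ^ (g + 1 - 1 - i))
        ≤ D.nu i₀ (x - R) * Real.exp (g * lam) :=
          mul_le_mul_of_nonneg_left h1 ((D.nu i₀).nonneg _)
      _ < Real.exp lam * Real.exp (g * lam) :=
          mul_lt_mul_of_pos_right (by rw [← hxs]; exact H.xR) (Real.exp_pos _)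
      _ = Real.exp ((g + 1) * lam) := by rw [← Real.exp_add]; ring_nf
  have hyR : D.nu i₀ (y - (e : Ω) * R ^ (g + 1)) < Real.exp ((g + 1) * lam) := by
    have e1 : y - (e : Ω) * R ^ (g + 1) =
        (y - (e : Ω) * x ^ (g + 1)) + (e : Ω) * (x ^ (g + 1) - R ^ (g + 1)) := by ring
    rw [e1]
    refine lt_of_le_of_lt (D.ult i₀ _ _) (max_lt hey ?_)
    rw [map_mul, hen, one_mul]
    exact hxR
  have hy0 : y ≠ 0 := by
    intro h
    rw [h, zero_sub, AbsoluteValue.map_neg, map_mul, hen, one_mul, hRpow'] at hyR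
    exact lt_irrefl _ hyR
  -- y is integral
  have hyi : IsIntegral D.K y := by
    apply IsIntegral.of_pow (n := 2) two_pos
    rw [H.cu, ← aeval_map_algebraMap D.K x f]
    exact trh_aeval_int hx _
  -- the field L
  set L : IntermediateField D.K Ω := IntermediateField.adjoin D.K ({x, y} : Set Ω) with hL
  have hfin : FiniteDimensional D.K L := by
    rw [hL]
    apply IntermediateField.finiteDimensional_adjoin
    intro z hz
    rcases hz with rfl | hz
    · exact hx
    · rw [Set.mem_singleton_iff] at hz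
      rw [hz]
      exact hyi
  have hxL : x ∈ L := IntermediateField.subset_adjoin _ _ (Set.mem_insert _ _)
  have hyL : y ∈ L :=
    IntermediateField.subset_adjoin _ _ (Set.mem_insert_of_mem _ (Set.mem_singleton y))
  set xL : L := ⟨x, hxL⟩ with hxLd
  set yL : L := ⟨y, hyL⟩ with hyLd
  have hyL0 : yL ≠ 0 := by
    intro h
    apply hy0
    have := congrArg (fun z : L => (z : Ω)) h
    exact this
  set τ : F →+* D.K := algebraMap F D.K with hτ
  have hce : yL ^ 2 = eval₂ ((algebraMap D.K L).comp τ) xL f := by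
    apply (algebraMap L Ω).injective
    rw [map_pow, hom_eval₂]
    exact H.cu
  -- derivations
  obtain ⟨δ, hδ⟩ := hDEL F Ω I r D
  obtain ⟨hDBD1, hDBD2⟩ := hDBD F Ω I r D δ hδ
  choose Δ hΔ using fun k => hDEX D.K L (δ k) (hδ.dv k)
  -- the absolute values of K
  set ν : I → AbsoluteValue D.K ℝ := fun i => (D.nu i).comp (algebraMap D.K Ω).injective with hν
  have hνe : ∀ i (z : D.K), ν i z = D.nu i (z : Ω) := fun i z => rfl
  have hUl : ∀ i, Ul (ν i) := by
    intro i
    refine ⟨fun a b => ?_, fun q hq => ?_⟩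
    · rw [hνe, hνe, hνe]
      exact D.ult i _ _
    · have h1 := D.F1 i (q : F) (by exact_mod_cast hq)
      rw [map_ratCast] at h1
      rw [hνe]
      push_cast
      exact h1
  have h1ν : ∀ i (c : F), c ≠ 0 → ν i (τ c) = 1 := fun i c hc => D.F1 i c hc
  set T : Fin r → D.K := fun k => Algebra.trace D.K L (Δ k xL / yL) with hT
  -- (b)
  have hb : ∀ k i, ν i (T k) ≤ 1 := fun k i =>
    (tre_int hLTR hWPT τ (ν i) False (δ k) (Δ k) (hUl i) (hδ.dv k)
      ⟨fun z => hDBD1 k i z, fun h => h.elim⟩ (hΔ k).1 (hΔ k).2 (h1ν i) (hδ.cst k) g H.hg f H.fm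
      H.fd H.fs xL yL hyL0 hce).1
  -- (a)
  have ha : ∀ k, (T k : Ω) ∈ D.R := by
    intro k
    by_contra hcon
    obtain ⟨v, π, hv, hπ, hvF, hvB, hvπ, hvT⟩ := hPIV F Ω I r D δ (T k) hδ hcon
    have h1 := (tre_int hLTR hWPT τ v True (fun z => π * δ k z)
      (fun z => algebraMap D.K L π * Δ k z) hv
      (trh_dv (hδ.dv k) π)
      (hvB k)
      (trh_dv (hΔ k).1 _)
      (fun a => by
        change algebraMap D.K L π * Δ k (algebraMap D.K L a) = algebraMap D.K L (π * δ k a)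
        rw [(hΔ k).2, map_mul]) hvF
      (fun c => by
        change π * δ k (algebraMap F D.K c) = 0
        rw [hδ.cst k, mul_zero]) g H.hg f H.fm H.fd H.fs xL yL hyL0 hce).2 trivial
    have h2 : Algebra.trace D.K L (algebraMap D.K L π * Δ k xL / yL) = π * T k := by
      rw [mul_div_assoc, ← Algebra.smul_def, map_smul, smul_eq_mul]
    rw [h2] at h1
    exact absurd hvT (not_lt.2 (hvπ _ h1))
  -- (c)
  have hn0 : (Module.finrank D.K L : ℚ) ≠ 0 := by
    exact_mod_cast (Module.finrank_pos (R := D.K) (M := L)).ne'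
  have hνn : ∀ i, ν i ((Module.finrank D.K L : D.K)) = 1 := by
    intro i
    have := (hUl i).2 (Module.finrank D.K L : ℚ) hn0
    push_cast at this
    exact this
  set RK : D.K := ⟨R, H.RR⟩ with hRKd
  have hRKs : ν i₀ RK = Real.exp lam := hRs
  have heK : ν i₀ e = 1 := hen
  have hsize : ∀ z : D.K,
      ν i₀ ((Module.finrank D.K L : D.K) * (e * z / RK ^ (g + 1))) =
        ν i₀ z * Real.exp (-((g + 1) * lam)) := by
    intro z
    have e2 : ν i₀ (RK ^ (g + 1)) = Real.exp ((g + 1) * lam) := by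
      rw [hνe]
      exact hRpow'
    rw [map_mul, hνn, one_mul, map_div₀, map_mul, heK, one_mul, e2, Real.exp_neg, div_eq_mul_inv]
  have hc : ∀ k, ν i₀ (T k - (Module.finrank D.K L : D.K) *
      (e * δ k RK / RK ^ (g + 1))) < Real.exp (-(g * lam)) := by
    intro k
    have hRi : IsIntegral D.K R := by
      have : R = algebraMap D.K Ω RK := rfl
      rw [this]
      exact isIntegral_algebraMap
    have hei : IsIntegral D.K (e : Ω) := isIntegral_algebraMap
    have hz1 : IsIntegral D.K (x - R) := hx.sub hRi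
    have hz2 : IsIntegral D.K (y - (e : Ω) * R ^ (g + 1)) := hyi.sub (hei.mul (hRi.pow _))
    have hd1 : ∃ q ∈ D.R, q ≠ 0 ∧ q * (x - R) ∈ D.O := by
      obtain ⟨q, hq, hq0, hqi⟩ := trh_den D hz1
      exact ⟨q, hq, hq0, H.ic _ hqi⟩
    have hd2 : ∃ q ∈ D.R, q ≠ 0 ∧ q * (y - (e : Ω) * R ^ (g + 1)) ∈ D.O := by
      obtain ⟨q, hq, hq0, hqi⟩ := trh_den D hz2
      exact ⟨q, hq, hq0, H.ic _ hqi⟩
    have m1 : minpoly D.K (xL - algebraMap D.K L RK) = minpoly D.K (x - R) := by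
      rw [← minpoly.algebraMap_eq (algebraMap L Ω).injective]
      rfl
    have m2 : minpoly D.K (yL - algebraMap D.K L (e * RK ^ (g + 1))) =
        minpoly D.K (y - (e : Ω) * R ^ (g + 1)) := by
      rw [← minpoly.algebraMap_eq (algebraMap L Ω).injective]
      rfl
    refine tre_near hLTR hNPT (ν i₀) (δ k) (Δ k) (hUl i₀) (hδ.dv k)
      ⟨fun z => hDBD1 k i₀ z, fun h => h.elim⟩ (hΔ k).1 (hΔ k).2 g xL yL RK e he lam hlam hRKs
      (D.nu i₀ (x - R)) (D.nu i₀ (y - (e : Ω) * R ^ (g + 1)))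
      ((D.nu i₀).nonneg _) ((D.nu i₀).nonneg _) (by rw [← hxs]; exact H.xR) hyR ?_ ?_
    · rw [m1]
      exact fun k => hPRQ F Ω I r D _ hd1 hz1 i₀ k
    · rw [m2]
      exact fun k => hPRQ F Ω I r D _ hd2 hz2 i₀ k
  have hgpos : (1 : ℝ) ≤ g := by exact_mod_cast H.hg
  have hsmall : ∀ k, ν i₀ (T k) < 1 := by
    intro k
    have h1 := hc k
    have h2 := hsize (δ k RK)
    have h3 : ν i₀ (δ k RK) ≤ Real.exp lam := by
      have := hDBD1 k i₀ RK
      rw [hνe]
      exact this.trans hRs.le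
    set W : D.K := (Module.finrank D.K L : D.K) * (e * δ k RK / RK ^ (g + 1)) with hW
    have h4 : ν i₀ W ≤ Real.exp (-(g * lam)) := by
      rw [h2]
      calc ν i₀ (δ k RK) * Real.exp (-((g + 1) * lam))
          ≤ Real.exp lam * Real.exp (-((g + 1) * lam)) :=
            mul_le_mul_of_nonneg_right h3 (Real.exp_pos _).le
        _ = Real.exp (-(g * lam)) := by rw [← Real.exp_add]; ring_nf
    have h5 : ν i₀ (T k) ≤ Real.exp (-(g * lam)) := by
      have e : T k = (T k - W) + W := by ring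
      rw [e]
      exact ((hUl i₀).1 _ _).trans (max_le h1.le h4)
    exact lt_of_le_of_lt h5 (Real.exp_lt_one_iff.2 (by nlinarith))
  obtain ⟨-, -, -, -, -, hRO, -, -, -, -, -, -, -, hpf, -, -, -⟩ := hRK F Ω I r D
  have hT0 : ∀ k, T k = 0 := by
    intro k
    by_contra hne
    have hne' : (T k : Ω) ≠ 0 := by
      intro h
      apply hne
      exact Subtype.ext h
    have h1 := hpf (T k : Ω) (hRO _ (ha k)) hne'
    have h2 : ∏ i, D.nu i (T k : Ω) < 1 := by
      rw [← Finset.mul_prod_erase Finset.univ _ (Finset.mem_univ i₀)]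
      calc D.nu i₀ (T k : Ω) * ∏ i ∈ Finset.univ.erase i₀, D.nu i (T k : Ω)
          ≤ D.nu i₀ (T k : Ω) * 1 :=
            mul_le_mul_of_nonneg_left (Finset.prod_le_one (fun i _ => (D.nu i).nonneg _)
              (fun i _ => hb k i)) ((D.nu i₀).nonneg _)
        _ < 1 := by rw [mul_one]; exact hsmall k
    linarith
  -- (d)
  have hRne : RK ≠ 0 := by
    intro h
    have h1 : R = 0 := congrArg (fun z : D.K => (z : Ω)) h
    have h2 := hRs
    rw [h1, map_zero] at h2
    exact (Real.exp_pos lam).ne h2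
  have hRone : D.nu i₀ (RK : Ω) ≠ 1 := by
    intro h
    have h2 : Real.exp lam = 1 := hRs.symm.trans h
    have h3 : Real.exp lam = Real.exp 0 := by rw [h2, Real.exp_zero]
    exact hlam.ne' (Real.exp_injective h3)
  obtain ⟨k, hk⟩ := hDBD2 i₀ _ hRne hRone
  have h1 := hc k
  have h2 := hsize (δ k RK)
  have h3 : ν i₀ (δ k RK) = Real.exp lam := by
    rw [hνe, hk]
    exact hRs
  rw [hT0 k, zero_sub, AbsoluteValue.map_neg, h2, h3, ← Real.exp_add] at h1
  have h4 := Real.exp_lt_exp.1 h1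
  linarith

end Pool.Agent.Helper28.HE
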