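import Pool.Agent.Helper28.HN.TRZ
import Pool.Agent.Helper71.HN.SheetP

/-! Project HP, row TRP: `Helper28.HZ.TRZ` with one near place and without integrality of `x`, `y`
(as `Helper77.HM.TREM`). -/

set_option autoImplicit false

namespace Pool.Agent.Helper28.HP

open Polynomial Finset Pool.Agent.Helper71.HN Pool.Agent.Helper71.JN Pool.Agent.Helper53.JN
  Pool.Agent.Helper47.JN Pool.Agent.Helper58.HN Pool.Agent.Helper71.HZ Pool.Agent.Helper71.HP
  Pool.Agent.Helper28.HZ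

theorem trp_eq {Ω : Type} [Field Ω] (v : AbsoluteValue Ω ℝ) (hU : ∀ a b, v (a + b) ≤ max (v a) (v b))
    (x z : Ω) (h : v (x - z) < v x) : v z = v x := by
  apply le_antisymm
  · have e : z = x + -(x - z) := by ring
    rw [e]
    refine (hU _ _).trans (max_le le_rfl ?_)
    rw [AbsoluteValue.map_neg]
    exact h.le
  · by_contra hcon
    push Not at hcon
    have e : x = z + (x - z) := by ring
    have h1 : v x ≤ max (v z) (v (x - z)) := by
      conv_lhs => rw [e]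
      exact hU _ _
    exact absurd h1 (not_le.2 (max_lt hcon h))

theorem TRP (hDEX : ST_DEX) (hLTR : ST_LTR) (hDEL : ST_DEL) (hDBD : ST_DBD) (hPIV : ST_PIV)
    (hPRQ : ST_PRQ) (hRK : ST_RK) (hWPT : ST_WPT) (hNPT : ST_NPTZ) : ST_TRP := by
  classical
  intro F Ω _ _ _ _ I _ r D g f x y i₀ R₁ H hx
  have hcK : CharZero D.K := (algebraMap D.K Ω).charZero
  have hcF : CharZero F := (algebraMap F Ω).charZero
  set lam : ℝ := 1 / 2 * Real.log (D.nu i₀ x) with hlamd
  have hlam : 0 < lam := by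
    have := Real.log_pos H.x1
    rw [hlamd]
    linarith
  have hxs : D.nu i₀ x = Real.exp (2 * lam) := by
    rw [hlamd, show 2 * (1 / 2 * Real.log (D.nu i₀ x)) = Real.log (D.nu i₀ x) by ring,
      Real.exp_log (zero_lt_one.trans H.x1)]
  have hR2 : D.nu i₀ (R₁ ^ 2) = Real.exp (2 * lam) := by
    rw [← hxs]
    exact trp_eq (D.nu i₀) (D.ult i₀) x _ H.xR
  have hRs : D.nu i₀ R₁ = Real.exp lam := by
    have h1 : D.nu i₀ R₁ ^ 2 = Real.exp lam ^ 2 := by
      rw [← map_pow, hR2, ← Real.exp_nat_mul]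
      push_cast
      rfl
    exact (pow_left_inj₀ ((D.nu i₀).nonneg _) (Real.exp_pos _).le two_ne_zero).1 h1
  have hRpow1 : ∀ n : ℕ, D.nu i₀ (R₁ ^ n) = Real.exp (n * lam) := by
    intro n
    rw [map_pow, hRs, ← Real.exp_nat_mul]
  have hxpow : ∀ n : ℕ, D.nu i₀ (x ^ n) = Real.exp (n * (2 * lam)) := by
    intro n
    rw [map_pow, hxs, ← Real.exp_nat_mul]
  -- the size of `f x - x ^ (2 g + 1)`
  have hfx : D.nu i₀ (aeval x f - x ^ (2 * g + 1)) < Real.exp ((2 * g + 1) * (2 * lam)) := by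
    rw [aeval_eq_sum_range, H.fd, Finset.sum_range_succ]
    have e1 : f.coeff (2 * g + 1) = 1 := by
      have := H.fm.coeff_natDegree
      rwa [H.fd] at this
    rw [e1, one_smul, add_sub_cancel_right]
    apply trh_sum_lt (D.nu i₀) (D.ult i₀) _ _ _ (Real.exp_pos _)
    intro k hk
    have hk' : k < 2 * g + 1 := Finset.mem_range.1 hk
    rw [Algebra.smul_def, map_mul, hxpow]
    have h1 : D.nu i₀ (algebraMap F Ω (f.coeff k)) ≤ 1 := by
      by_cases h : f.coeff k = 0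
      · rw [h, map_zero, map_zero]
        exact zero_le_one
      · exact (D.F1 i₀ _ h).le
    calc D.nu i₀ (algebraMap F Ω (f.coeff k)) * Real.exp (k * (2 * lam))
        ≤ 1 * Real.exp (k * (2 * lam)) := mul_le_mul_of_nonneg_right h1 (Real.exp_pos _).le
      _ < Real.exp ((2 * g + 1) * (2 * lam)) := by
        rw [one_mul]
        apply Real.exp_lt_exp.2
        have : (k : ℝ) < 2 * g + 1 := by exact_mod_cast hk'
        exact mul_lt_mul_of_pos_right this (by linarith)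
  have hxR1 : D.nu i₀ (x ^ (2 * g + 1) - (R₁ ^ 2) ^ (2 * g + 1)) <
      Real.exp ((2 * g + 1) * (2 * lam)) := by
    rw [← (Commute.all x (R₁ ^ 2)).mul_geom_sum₂, map_mul]
    have h1 : D.nu i₀ (∑ i ∈ range (2 * g + 1), x ^ i * (R₁ ^ 2) ^ (2 * g + 1 - 1 - i)) ≤
        Real.exp (2 * g * (2 * lam)) := by
      apply trh_sum_le (D.nu i₀) (D.ult i₀) _ _ _ (Real.exp_pos _).le
      intro k hk
      have hk' : k < 2 * g + 1 := Finset.mem_range.1 hk
      rw [map_mul, hxpow, map_pow, hR2, ← Real.exp_nat_mul, ← Real.exp_add]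
      apply le_of_eq
      congr 1
      have e1 : ((2 * g + 1 - 1 - k : ℕ) : ℝ) = 2 * (g : ℝ) - k := by
        rw [Nat.add_sub_cancel, Nat.cast_sub (by omega)]
        push_cast
        rfl
      rw [e1]
      ring
    calc D.nu i₀ (x - R₁ ^ 2) *
          D.nu i₀ (∑ i ∈ range (2 * g + 1), x ^ i * (R₁ ^ 2) ^ (2 * g + 1 - 1 - i))
        ≤ D.nu i₀ (x - R₁ ^ 2) * Real.exp (2 * g * (2 * lam)) :=
          mul_le_mul_of_nonneg_left h1 ((D.nu i₀).nonneg _)
      _ < Real.exp (2 * lam) * Real.exp (2 * g * (2 * lam)) :=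
          mul_lt_mul_of_pos_right (by rw [← hxs]; exact H.xR) (Real.exp_pos _)
      _ = Real.exp ((2 * g + 1) * (2 * lam)) := by rw [← Real.exp_add]; ring_nf
  -- the sign
  have hsg : ∃ R : Ω, (R = R₁ ∨ R = -R₁) ∧
      D.nu i₀ (y - R ^ (2 * g + 1)) < Real.exp ((2 * g + 1) * lam) := by
    by_contra hcon
    push Not at hcon
    have h1 := hcon R₁ (Or.inl rfl)
    have h2 := hcon (-R₁) (Or.inr rfl)
    have h3 : (y - R₁ ^ (2 * g + 1)) * (y - (-R₁) ^ (2 * g + 1)) =
        (aeval x f - x ^ (2 * g + 1)) + (x ^ (2 * g + 1) - (R₁ ^ 2) ^ (2 * g + 1)) := by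
      rw [← H.cu, Odd.neg_pow ⟨g, rfl⟩, ← pow_mul, mul_comm 2 (2 * g + 1), pow_mul]
      ring
    have h4 : Real.exp ((2 * g + 1) * (2 * lam)) ≤
        D.nu i₀ ((aeval x f - x ^ (2 * g + 1)) + (x ^ (2 * g + 1) - (R₁ ^ 2) ^ (2 * g + 1))) := by
      rw [← h3, map_mul]
      calc Real.exp ((2 * g + 1) * (2 * lam)) =
            Real.exp ((2 * g + 1) * lam) * Real.exp ((2 * g + 1) * lam) := by
            rw [← Real.exp_add]; ring_nf
        _ ≤ _ := mul_le_mul h1 h2 (Real.exp_pos _).le ((D.nu i₀).nonneg _)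
    exact absurd (lt_of_le_of_lt (D.ult i₀ _ _) (max_lt hfx hxR1)) (not_lt.2 h4)
  obtain ⟨R, hRR, hs4⟩ := hsg
  have hRK1 : R ∈ D.K := by
    rcases hRR with h | h
    · rw [h]; exact H.RR
    · rw [h]; exact neg_mem H.RR
  have hRsq : R ^ 2 = R₁ ^ 2 := by
    rcases hRR with h | h
    · rw [h]
    · rw [h, neg_sq]
  have hs1 : D.nu i₀ R = Real.exp lam := by
    rcases hRR with h | h
    · rw [h]; exact hRs
    · rw [h, AbsoluteValue.map_neg]; exact hRs
  have hs2 : D.nu i₀ (x - R ^ 2) < Real.exp (2 * lam) := by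
    rw [hRsq, ← hxs]
    exact H.xR
  -- sizes of the powers of R
  have hRpow : ∀ n : ℕ, D.nu i₀ (R ^ n) = Real.exp (n * lam) := by
    intro n
    rw [map_pow, hs1, ← Real.exp_nat_mul]
  have hRpow' : D.nu i₀ (R ^ (2 * g + 1)) = Real.exp ((2 * g + 1) * lam) := by
    rw [hRpow]
    push_cast
    rfl
  have hy0 : y ≠ 0 := by
    intro h
    have h1 := hs4
    rw [h, zero_sub, AbsoluteValue.map_neg, hRpow'] at h1
    exact lt_irrefl _ h1
  -- y is integral
  have hyi : IsIntegral D.K y := by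
    apply IsIntegral.of_pow (n := 2) two_pos
    rw [H.cu, ← aeval_map_algebraMap D.K x f]
    exact trh_aeval_int hx _
  -- the field L
  set L : IntermediateField D.K Ω := IntermediateField.adjoin D.K ({x, y} : Set Ω) with hL
  have hfin : FiniteDimensional D.K L := by
    rw [hL]
    apply IntermediateField.finiteDimensional_adjoin
    intro z hz
    rcases hz with rfl | hz
    · exact hx
    · rw [Set.mem_singleton_iff] at hz
      rw [hz]
      exact hyi
  have hxL : x ∈ L := IntermediateField.subset_adjoin _ _ (Set.mem_insert _ _)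
  have hyL : y ∈ L :=
    IntermediateField.subset_adjoin _ _ (Set.mem_insert_of_mem _ (Set.mem_singleton y))
  set xL : L := ⟨x, hxL⟩ with hxLd
  set yL : L := ⟨y, hyL⟩ with hyLd
  have hyL0 : yL ≠ 0 := by
    intro h
    apply hy0
    have := congrArg (fun z : L => (z : Ω)) h
    exact this
  set τ : F →+* D.K := algebraMap F D.K with hτ
  have he : yL ^ 2 = eval₂ ((algebraMap D.K L).comp τ) xL f := by
    apply (algebraMap L Ω).injective
    rw [map_pow, hom_eval₂]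
    exact H.cu
  -- derivations
  obtain ⟨δ, hδ⟩ := hDEL F Ω I r D
  obtain ⟨hDBD1, hDBD2⟩ := hDBD F Ω I r D δ hδ
  choose Δ hΔ using fun k => hDEX D.K L (δ k) (hδ.dv k)
  -- the absolute values of K
  set ν : I → AbsoluteValue D.K ℝ := fun i => (D.nu i).comp (algebraMap D.K Ω).injective with hν
  have hνe : ∀ i (z : D.K), ν i z = D.nu i (z : Ω) := fun i z => rfl
  have hUl : ∀ i, Ul (ν i) := by
    intro i
    refine ⟨fun a b => ?_, fun q hq => ?_⟩
    · rw [hνe, hνe, hνe]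
      exact D.ult i _ _
    · have h1 := D.F1 i (q : F) (by exact_mod_cast hq)
      rw [map_ratCast] at h1
      rw [hνe]
      push_cast
      exact h1
  have h1ν : ∀ i (c : F), c ≠ 0 → ν i (τ c) = 1 := fun i c hc => D.F1 i c hc
  set T : Fin r → D.K := fun k => Algebra.trace D.K L (Δ k xL / yL) with hT
  -- (b)
  have hb : ∀ k i, ν i (T k) ≤ 1 := fun k i =>
    (trh_int hLTR hWPT τ (ν i) False (δ k) (Δ k) (hUl i) (hδ.dv k)
      ⟨fun z => hDBD1 k i z, fun h => h.elim⟩ (hΔ k).1 (hΔ k).2 (h1ν i) (hδ.cst k) g H.hg f H.fm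
      H.fd H.fs xL yL hyL0 he).1
  -- (a)
  have ha : ∀ k, (T k : Ω) ∈ D.R := by
    intro k
    by_contra hcon
    obtain ⟨v, π, hv, hπ, hvF, hvB, hvπ, hvT⟩ := hPIV F Ω I r D δ (T k) hδ hcon
    have h1 := (trh_int hLTR hWPT τ v True (fun z => π * δ k z)
      (fun z => algebraMap D.K L π * Δ k z) hv
      (trh_dv (hδ.dv k) π)
      (hvB k)
      (trh_dv (hΔ k).1 _)
      (fun a => by
        change algebraMap D.K L π * Δ k (algebraMap D.K L a) = algebraMap D.K L (π * δ k a)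
        rw [(hΔ k).2, map_mul]) hvF
      (fun c => by
        change π * δ k (algebraMap F D.K c) = 0
        rw [hδ.cst k, mul_zero]) g H.hg f H.fm H.fd H.fs xL yL hyL0 he).2 trivial
    have h2 : Algebra.trace D.K L (algebraMap D.K L π * Δ k xL / yL) = π * T k := by
      rw [mul_div_assoc, ← Algebra.smul_def, map_smul, smul_eq_mul]
    rw [h2] at h1
    exact absurd hvT (not_lt.2 (hvπ _ h1))
  -- (c)
  have hn0 : (Module.finrank D.K L : ℚ) ≠ 0 := by
    exact_mod_cast (Module.finrank_pos (R := D.K) (M := L)).ne'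
  have hνn : ∀ i, ν i ((Module.finrank D.K L : D.K)) = 1 := by
    intro i
    have := (hUl i).2 (Module.finrank D.K L : ℚ) hn0
    push_cast at this
    exact this
  have hν2 : ∀ i, ν i (2 : D.K) = 1 := by
    intro i
    have := (hUl i).2 (2 : ℚ) two_ne_zero
    push_cast at this
    exact this
  have hsize : ∀ z : D.K,
      ν i₀ ((Module.finrank D.K L : D.K) *
        (2 * ⟨R, hRK1⟩ * z / (⟨R, hRK1⟩ : D.K) ^ (2 * g + 1))) =
        ν i₀ z * Real.exp (-(2 * g * lam)) := by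
    intro z
    have e1 : ν i₀ ⟨R, hRK1⟩ = Real.exp lam := hs1
    have e2 : ν i₀ ((⟨R, hRK1⟩ : D.K) ^ (2 * g + 1)) =
        Real.exp ((2 * g + 1) * lam) := by
      rw [hνe]
      exact hRpow'
    rw [map_mul, hνn, one_mul, map_div₀, map_mul, map_mul, hν2, one_mul, e1, e2]
    have e3 : Real.exp ((2 * g + 1) * lam) =
        Real.exp (lam) * Real.exp (2 * g * lam) := by
      rw [← Real.exp_add]; ring_nf
    rw [e3, Real.exp_neg]
    field_simp
  have hc : ∀ k, ν i₀ (T k - (Module.finrank D.K L : D.K) *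
      (2 * ⟨R, hRK1⟩ * δ k ⟨R, hRK1⟩ /
        (⟨R, hRK1⟩ : D.K) ^ (2 * g + 1))) < Real.exp ((1 - 2 * g) * lam) := by
    intro k
    have hRi : IsIntegral D.K R := by
      have : R = algebraMap D.K Ω ⟨R, hRK1⟩ := rfl
      rw [this]
      exact isIntegral_algebraMap
    have hz1 : IsIntegral D.K (x - R ^ 2) := hx.sub (hRi.pow 2)
    have hz2 : IsIntegral D.K (y - R ^ (2 * g + 1)) := hyi.sub (hRi.pow _)
    have hd1 : ∃ q ∈ D.R, q ≠ 0 ∧ q * (x - R ^ 2) ∈ D.O := by
      obtain ⟨q, hq, hq0, hqi⟩ := trh_den D hz1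
      exact ⟨q, hq, hq0, H.ic _ hqi⟩
    have hd2 : ∃ q ∈ D.R, q ≠ 0 ∧ q * (y - R ^ (2 * g + 1)) ∈ D.O := by
      obtain ⟨q, hq, hq0, hqi⟩ := trh_den D hz2
      exact ⟨q, hq, hq0, H.ic _ hqi⟩
    have m1 : minpoly D.K (xL - algebraMap D.K L (⟨R, hRK1⟩ ^ 2)) =
        minpoly D.K (x - R ^ 2) := by
      rw [← minpoly.algebraMap_eq (algebraMap L Ω).injective]
      rfl
    have m2 : minpoly D.K (yL - algebraMap D.K L (⟨R, hRK1⟩ ^ (2 * g + 1))) =
        minpoly D.K (y - R ^ (2 * g + 1)) := by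
      rw [← minpoly.algebraMap_eq (algebraMap L Ω).injective]
      rfl
    refine trz_near hLTR hNPT (ν i₀) (δ k) (Δ k) (hUl i₀) (hδ.dv k)
      ⟨fun z => hDBD1 k i₀ z, fun h => h.elim⟩ (hΔ k).1 (hΔ k).2 g H.hg xL yL
      ⟨R, hRK1⟩ (lam) hlam hs1 (D.nu i₀ (x - R ^ 2)) (D.nu i₀ (y - R ^ (2 * g + 1)))
      ((D.nu i₀).nonneg _) ((D.nu i₀).nonneg _)
      hs2 hs4 ?_ ?_
    · rw [m1]
      exact fun k => hPRQ F Ω I r D _ hd1 hz1 i₀ k
    · rw [m2]
      exact fun k => hPRQ F Ω I r D _ hd2 hz2 i₀ k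
  have hgpos : (1 : ℝ) ≤ g := by exact_mod_cast H.hg
  have hsmall : ∀ k, ν i₀ (T k) < 1 := by
    intro k
    have h1 := hc k
    have h2 := hsize (δ k ⟨R, hRK1⟩)
    have h3 : ν i₀ (δ k ⟨R, hRK1⟩) ≤ Real.exp (lam) := by
      have := hDBD1 k i₀ ⟨R, hRK1⟩
      rw [hνe]
      exact this.trans (hs1).le
    set W : D.K := (Module.finrank D.K L : D.K) *
      (2 * ⟨R, hRK1⟩ * δ k ⟨R, hRK1⟩ /
        (⟨R, hRK1⟩ : D.K) ^ (2 * g + 1)) with hW
    have h4 : ν i₀ W ≤ Real.exp ((1 - 2 * g) * lam) := by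
      rw [h2]
      calc ν i₀ (δ k ⟨R, hRK1⟩) * Real.exp (-(2 * g * lam))
          ≤ Real.exp (lam) * Real.exp (-(2 * g * lam)) :=
            mul_le_mul_of_nonneg_right h3 (Real.exp_pos _).le
        _ = Real.exp ((1 - 2 * g) * lam) := by rw [← Real.exp_add]; ring_nf
    have h5 : ν i₀ (T k) ≤ Real.exp ((1 - 2 * g) * lam) := by
      have e : T k = (T k - W) + W := by ring
      rw [e]
      exact ((hUl i₀).1 _ _).trans (max_le h1.le h4)
    exact lt_of_le_of_lt h5 (Real.exp_lt_one_iff.2 (by nlinarith [hlam]))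
  obtain ⟨-, -, -, -, -, hRO, -, -, -, -, -, -, -, hpf, -, -, -⟩ := hRK F Ω I r D
  have hT0 : ∀ k, T k = 0 := by
    intro k
    by_contra hne
    have hne' : (T k : Ω) ≠ 0 := by
      intro h
      apply hne
      exact Subtype.ext h
    have h1 := hpf (T k : Ω) (hRO _ (ha k)) hne'
    have h2 : ∏ i, D.nu i (T k : Ω) < 1 := by
      rw [← Finset.mul_prod_erase Finset.univ _ (Finset.mem_univ i₀)]
      calc D.nu i₀ (T k : Ω) * ∏ i ∈ Finset.univ.erase i₀, D.nu i (T k : Ω)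
          ≤ D.nu i₀ (T k : Ω) * 1 :=
            mul_le_mul_of_nonneg_left (Finset.prod_le_one (fun i _ => (D.nu i).nonneg _)
              (fun i _ => hb k i)) ((D.nu i₀).nonneg _)
        _ < 1 := by rw [mul_one]; exact hsmall k
    linarith
  -- (d)
  have hRne : (⟨R, hRK1⟩ : D.K) ≠ 0 := by
    intro h
    have h1 : R = 0 := congrArg (fun z : D.K => (z : Ω)) h
    have h2 := hs1
    rw [h1, map_zero] at h2
    exact (Real.exp_pos (lam)).ne h2
  have hRone : D.nu i₀ ((⟨R, hRK1⟩ : D.K) : Ω) ≠ 1 := by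
    intro h
    have h2 : Real.exp (lam) = 1 := (hs1).symm.trans h
    have h3 : Real.exp (lam) = Real.exp 0 := by rw [h2, Real.exp_zero]
    exact (hlam).ne' (Real.exp_injective h3)
  obtain ⟨k, hk⟩ := hDBD2 i₀ _ hRne hRone
  have h1 := hc k
  have h2 := hsize (δ k ⟨R, hRK1⟩)
  have h3 : ν i₀ (δ k ⟨R, hRK1⟩) = Real.exp (lam) := by
    rw [hνe, hk]
    exact hs1
  rw [hT0 k, zero_sub, AbsoluteValue.map_neg, h2, h3, ← Real.exp_add] at h1
  have h4 := Real.exp_lt_exp.1 h1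
  linarith

end Pool.Agent.Helper28.HP
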