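import Pool.Agent.Helper58.HN.TRH
import Pool.Agent.Helper71.HN.SheetZ

/-! Project HZ, row TRZ (after `Helper58.HN.TRH`): the contradiction, one place of `J` is enough. -/

set_option autoImplicit false

namespace Pool.Agent.Helper28.HZ

open Polynomial Finset Pool.Agent.Helper71.HN Pool.Agent.Helper71.JN Pool.Agent.Helper53.JN
  Pool.Agent.Helper47.JN Pool.Agent.Helper58.HN Pool.Agent.Helper71.HZ

theorem trz_near (hLTR : ST_LTR) (hNPT : ST_NPTZ) {K L : Type} [Field K] [Field L]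
    [CharZero K] [Algebra K L] [FiniteDimensional K L] (ν : AbsoluteValue K ℝ)
    (δ : K → K) (Δ : L → L) (hU : Ul ν) (hδ : Dv δ) (hB : Bd ν False δ) (hΔ : Dv Δ)
    (hc : ∀ a, Δ (algebraMap K L a) = algebraMap K L (δ a)) (g : ℕ) (hg : 1 ≤ g) (x y : L)
    (R : K) (lam : ℝ) (hlam : 0 < lam) (hR : ν R = Real.exp lam) (c₁ c₂ : ℝ) (hc₁ : 0 ≤ c₁) (hc₂ : 0 ≤ c₂)
    (hc₁' : c₁ < Real.exp (2 * lam)) (hc₂' : c₂ < Real.exp ((2 * g + 1) * lam))
    (h₁ : ∀ k : ℕ, ν ((minpoly K (x - algebraMap K L (R ^ 2))).coeff k) ≤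
      c₁ ^ ((minpoly K (x - algebraMap K L (R ^ 2))).natDegree - k))
    (h₂ : ∀ k : ℕ, ν ((minpoly K (y - algebraMap K L (R ^ (2 * g + 1)))).coeff k) ≤
      c₂ ^ ((minpoly K (y - algebraMap K L (R ^ (2 * g + 1)))).natDegree - k)) :
    ν (Algebra.trace K L (Δ x / y) -
      (Module.finrank K L : K) * (2 * R * δ R / R ^ (2 * g + 1))) < Real.exp ((1 - 2 * g) * lam) := by
  obtain ⟨N, hN, v, ι, δ', T, hUv, hδ', hB', hι, hιδ, hσ, hσδ, hcard, htr⟩ :=
    hLTR K L ν False δ Δ hU hδ hB hΔ hc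
  have key : ∀ σ ∈ T, v (σ (Δ x / y) - ι (2 * R * δ R / R ^ (2 * g + 1))) <
      Real.exp ((1 - 2 * g) * lam) := by
    intro σ hσT
    have e1 : v (σ x - ι R ^ 2) < Real.exp (2 * lam) := by
      refine lt_of_le_of_lt ?_ hc₁'
      have := trh_conj ν v ι σ hUv.1 hι (hσ σ hσT) _
        (Algebra.IsIntegral.isIntegral (x - algebraMap K L (R ^ 2))) c₁ hc₁ h₁
      rwa [map_sub, hσ σ hσT, map_pow] at this
    have e2 : v (σ y - ι R ^ (2 * g + 1)) < Real.exp ((2 * g + 1) * lam) := by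
      refine lt_of_le_of_lt ?_ hc₂'
      have := trh_conj ν v ι σ hUv.1 hι (hσ σ hσT) _
        (Algebra.IsIntegral.isIntegral (y - algebraMap K L (R ^ (2 * g + 1)))) c₂ hc₂ h₂
      rwa [map_sub, hσ σ hσT, map_pow] at this
    have e3 := hNPT N v False δ' g lam (σ x) (σ y) (ι R) hUv hδ' hB' hg hlam
      (by rw [hι, hR]) e1 e2
    rw [hσδ σ hσT, hιδ] at e3
    have e4 : ι (2 * R * δ R / R ^ (2 * g + 1)) =
        2 * ι R * ι (δ R) / ι R ^ (2 * g + 1) := by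
      simp only [map_div₀, map_mul, map_pow, map_ofNat]
    rw [e4, map_div₀]
    exact e3
  rw [← hι, map_sub, htr, map_mul, map_natCast, ← hcard, ← nsmul_eq_mul, ← Finset.sum_const,
    ← Finset.sum_sub_distrib]
  exact trh_sum_lt v hUv.1 _ _ _ (Real.exp_pos _) key

theorem TRZ (hDEX : ST_DEX) (hLTR : ST_LTR) (hDEL : ST_DEL) (hDBD : ST_DBD) (hPIV : ST_PIV)
    (hPRQ : ST_PRQ) (hRK : ST_RK) (hWPT : ST_WPT) (hNPT : ST_NPTZ) : ST_TRZ := by
  classical
  intro F Ω _ _ _ _ I _ r D J g f lam c m x y R H hx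
  have hcK : CharZero D.K := (algebraMap D.K Ω).charZero
  have hcF : CharZero F := (algebraMap F Ω).charZero
  obtain ⟨i₀, hi₀⟩ := H.hJ
  -- sizes of the powers of R
  have hRpow : ∀ i ∈ J, ∀ n : ℕ, D.nu i (R i ^ n) = Real.exp (n * lam i) := by
    intro i hi n
    rw [map_pow, H.s1 i hi, ← Real.exp_nat_mul]
  have hRpow' : ∀ i ∈ J, D.nu i (R i ^ (2 * g + 1)) = Real.exp ((2 * g + 1) * lam i) := by
    intro i hi
    rw [hRpow i hi]
    push_cast
    rfl
  have hy0 : y ≠ 0 := by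
    intro h
    have h1 := H.s4 i₀ hi₀
    rw [h, zero_sub, AbsoluteValue.map_neg, hRpow' i₀ hi₀] at h1
    exact lt_irrefl _ h1
  -- y is integral
  have hyi : IsIntegral D.K y := by
    apply IsIntegral.of_pow (n := 2) two_pos
    rw [H.cu, ← aeval_map_algebraMap D.K x f]
    exact trh_aeval_int hx _
  -- the field L
  set L : IntermediateField D.K Ω := IntermediateField.adjoin D.K ({x, y} : Set Ω) with hL
  have hfin : FiniteDimensional D.K L := by
    rw [hL]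
    apply IntermediateField.finiteDimensional_adjoin
    intro z hz
    rcases hz with rfl | hz
    · exact hx
    · rw [Set.mem_singleton_iff] at hz
      rw [hz]
      exact hyi
  have hxL : x ∈ L := IntermediateField.subset_adjoin _ _ (Set.mem_insert _ _)
  have hyL : y ∈ L :=
    IntermediateField.subset_adjoin _ _ (Set.mem_insert_of_mem _ (Set.mem_singleton y))
  set xL : L := ⟨x, hxL⟩ with hxLd
  set yL : L := ⟨y, hyL⟩ with hyLd
  have hyL0 : yL ≠ 0 := by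
    intro h
    apply hy0
    have := congrArg (fun z : L => (z : Ω)) h
    exact this
  set τ : F →+* D.K := algebraMap F D.K with hτ
  have he : yL ^ 2 = eval₂ ((algebraMap D.K L).comp τ) xL f := by
    apply (algebraMap L Ω).injective
    rw [map_pow, hom_eval₂]
    exact H.cu
  -- derivations
  obtain ⟨δ, hδ⟩ := hDEL F Ω I r D
  obtain ⟨hDBD1, hDBD2⟩ := hDBD F Ω I r D δ hδ
  choose Δ hΔ using fun k => hDEX D.K L (δ k) (hδ.dv k)
  -- the absolute values of K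
  set ν : I → AbsoluteValue D.K ℝ := fun i => (D.nu i).comp (algebraMap D.K Ω).injective with hν
  have hνe : ∀ i (z : D.K), ν i z = D.nu i (z : Ω) := fun i z => rfl
  have hUl : ∀ i, Ul (ν i) := by
    intro i
    refine ⟨fun a b => ?_, fun q hq => ?_⟩
    · rw [hνe, hνe, hνe]
      exact D.ult i _ _
    · have h1 := D.F1 i (q : F) (by exact_mod_cast hq)
      rw [map_ratCast] at h1
      rw [hνe]
      push_cast
      exact h1
  have h1ν : ∀ i (c : F), c ≠ 0 → ν i (τ c) = 1 := fun i c hc => D.F1 i c hc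
  set T : Fin r → D.K := fun k => Algebra.trace D.K L (Δ k xL / yL) with hT
  -- (b)
  have hb : ∀ k i, ν i (T k) ≤ 1 := fun k i =>
    (trh_int hLTR hWPT τ (ν i) False (δ k) (Δ k) (hUl i) (hδ.dv k)
      ⟨fun z => hDBD1 k i z, fun h => h.elim⟩ (hΔ k).1 (hΔ k).2 (h1ν i) (hδ.cst k) g H.hg f H.fm
      H.fd H.fs xL yL hyL0 he).1
  -- (a)
  have ha : ∀ k, (T k : Ω) ∈ D.R := by
    intro k
    by_contra hcon
    obtain ⟨v, π, hv, hπ, hvF, hvB, hvπ, hvT⟩ := hPIV F Ω I r D δ (T k) hδ hcon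
    have h1 := (trh_int hLTR hWPT τ v True (fun z => π * δ k z)
      (fun z => algebraMap D.K L π * Δ k z) hv
      (trh_dv (hδ.dv k) π)
      (hvB k)
      (trh_dv (hΔ k).1 _)
      (fun a => by
        change algebraMap D.K L π * Δ k (algebraMap D.K L a) = algebraMap D.K L (π * δ k a)
        rw [(hΔ k).2, map_mul]) hvF
      (fun c => by
        change π * δ k (algebraMap F D.K c) = 0
        rw [hδ.cst k, mul_zero]) g H.hg f H.fm H.fd H.fs xL yL hyL0 he).2 trivial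
    have h2 : Algebra.trace D.K L (algebraMap D.K L π * Δ k xL / yL) = π * T k := by
      rw [mul_div_assoc, ← Algebra.smul_def, map_smul, smul_eq_mul]
    rw [h2] at h1
    exact absurd hvT (not_lt.2 (hvπ _ h1))
  -- (c)
  have hn0 : (Module.finrank D.K L : ℚ) ≠ 0 := by
    exact_mod_cast (Module.finrank_pos (R := D.K) (M := L)).ne'
  have hνn : ∀ i, ν i ((Module.finrank D.K L : D.K)) = 1 := by
    intro i
    have := (hUl i).2 (Module.finrank D.K L : ℚ) hn0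
    push_cast at this
    exact this
  have hν2 : ∀ i, ν i (2 : D.K) = 1 := by
    intro i
    have := (hUl i).2 (2 : ℚ) two_ne_zero
    push_cast at this
    exact this
  have hsize : ∀ i (hi : i ∈ J) (z : D.K),
      ν i ((Module.finrank D.K L : D.K) *
        (2 * ⟨R i, H.RR i hi⟩ * z / (⟨R i, H.RR i hi⟩ : D.K) ^ (2 * g + 1))) =
        ν i z * Real.exp (-(2 * g * lam i)) := by
    intro i hi z
    have e1 : ν i ⟨R i, H.RR i hi⟩ = Real.exp (lam i) := H.s1 i hi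
    have e2 : ν i ((⟨R i, H.RR i hi⟩ : D.K) ^ (2 * g + 1)) =
        Real.exp ((2 * g + 1) * lam i) := by
      rw [hνe]
      exact hRpow' i hi
    rw [map_mul, hνn, one_mul, map_div₀, map_mul, map_mul, hν2, one_mul, e1, e2]
    have e3 : Real.exp ((2 * g + 1) * lam i) =
        Real.exp (lam i) * Real.exp (2 * g * lam i) := by
      rw [← Real.exp_add]; ring_nf
    rw [e3, Real.exp_neg]
    field_simp
  have hc : ∀ k i (hi : i ∈ J), ν i (T k - (Module.finrank D.K L : D.K) *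
      (2 * ⟨R i, H.RR i hi⟩ * δ k ⟨R i, H.RR i hi⟩ /
        (⟨R i, H.RR i hi⟩ : D.K) ^ (2 * g + 1))) < Real.exp ((1 - 2 * g) * lam i) := by
    intro k i hi
    have hRi : IsIntegral D.K (R i) := by
      have : R i = algebraMap D.K Ω ⟨R i, H.RR i hi⟩ := rfl
      rw [this]
      exact isIntegral_algebraMap
    have hz1 : IsIntegral D.K (x - R i ^ 2) := hx.sub (hRi.pow 2)
    have hz2 : IsIntegral D.K (y - R i ^ (2 * g + 1)) := hyi.sub (hRi.pow _)
    have hd1 : ∃ q ∈ D.R, q ≠ 0 ∧ q * (x - R i ^ 2) ∈ D.O := by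
      obtain ⟨q, hq, hq0, hqi⟩ := trh_den D hz1
      exact ⟨q, hq, hq0, H.ic _ hqi⟩
    have hd2 : ∃ q ∈ D.R, q ≠ 0 ∧ q * (y - R i ^ (2 * g + 1)) ∈ D.O := by
      obtain ⟨q, hq, hq0, hqi⟩ := trh_den D hz2
      exact ⟨q, hq, hq0, H.ic _ hqi⟩
    have m1 : minpoly D.K (xL - algebraMap D.K L (⟨R i, H.RR i hi⟩ ^ 2)) =
        minpoly D.K (x - R i ^ 2) := by
      rw [← minpoly.algebraMap_eq (algebraMap L Ω).injective]
      rfl
    have m2 : minpoly D.K (yL - algebraMap D.K L (⟨R i, H.RR i hi⟩ ^ (2 * g + 1))) =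
        minpoly D.K (y - R i ^ (2 * g + 1)) := by
      rw [← minpoly.algebraMap_eq (algebraMap L Ω).injective]
      rfl
    refine trz_near hLTR hNPT (ν i) (δ k) (Δ k) (hUl i) (hδ.dv k)
      ⟨fun z => hDBD1 k i z, fun h => h.elim⟩ (hΔ k).1 (hΔ k).2 g H.hg xL yL
      ⟨R i, H.RR i hi⟩ (lam i) (H.l1 i hi) (H.s1 i hi) (D.nu i (x - R i ^ 2)) (D.nu i (y - R i ^ (2 * g + 1)))
      ((D.nu i).nonneg _) ((D.nu i).nonneg _)
      (lt_of_le_of_lt (H.s2 i hi) (Real.exp_lt_exp.2 (H.hc i hi))) (H.s4 i hi) ?_ ?_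
    · rw [m1]
      exact fun k => hPRQ F Ω I r D _ hd1 hz1 i k
    · rw [m2]
      exact fun k => hPRQ F Ω I r D _ hd2 hz2 i k
  have hgpos : (1 : ℝ) ≤ g := by exact_mod_cast H.hg
  have hsmall : ∀ k, ν i₀ (T k) < 1 := by
    intro k
    have h1 := hc k i₀ hi₀
    have h2 := hsize i₀ hi₀ (δ k ⟨R i₀, H.RR i₀ hi₀⟩)
    have h3 : ν i₀ (δ k ⟨R i₀, H.RR i₀ hi₀⟩) ≤ Real.exp (lam i₀) := by
      have := hDBD1 k i₀ ⟨R i₀, H.RR i₀ hi₀⟩
      rw [hνe]
      exact this.trans (H.s1 i₀ hi₀).le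
    set W : D.K := (Module.finrank D.K L : D.K) *
      (2 * ⟨R i₀, H.RR i₀ hi₀⟩ * δ k ⟨R i₀, H.RR i₀ hi₀⟩ /
        (⟨R i₀, H.RR i₀ hi₀⟩ : D.K) ^ (2 * g + 1)) with hW
    have h4 : ν i₀ W ≤ Real.exp ((1 - 2 * g) * lam i₀) := by
      rw [h2]
      calc ν i₀ (δ k ⟨R i₀, H.RR i₀ hi₀⟩) * Real.exp (-(2 * g * lam i₀))
          ≤ Real.exp (lam i₀) * Real.exp (-(2 * g * lam i₀)) :=
            mul_le_mul_of_nonneg_right h3 (Real.exp_pos _).le
        _ = Real.exp ((1 - 2 * g) * lam i₀) := by rw [← Real.exp_add]; ring_nf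
    have h5 : ν i₀ (T k) ≤ Real.exp ((1 - 2 * g) * lam i₀) := by
      have e : T k = (T k - W) + W := by ring
      rw [e]
      exact ((hUl i₀).1 _ _).trans (max_le h1.le h4)
    exact lt_of_le_of_lt h5 (Real.exp_lt_one_iff.2 (by nlinarith [H.l1 i₀ hi₀]))
  obtain ⟨-, -, -, -, -, hRO, -, -, -, -, -, -, -, hpf, -, -, -⟩ := hRK F Ω I r D
  have hT0 : ∀ k, T k = 0 := by
    intro k
    by_contra hne
    have hne' : (T k : Ω) ≠ 0 := by
      intro h
      apply hne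
      exact Subtype.ext h
    have h1 := hpf (T k : Ω) (hRO _ (ha k)) hne'
    have h2 : ∏ i, D.nu i (T k : Ω) < 1 := by
      rw [← Finset.mul_prod_erase Finset.univ _ (Finset.mem_univ i₀)]
      calc D.nu i₀ (T k : Ω) * ∏ i ∈ Finset.univ.erase i₀, D.nu i (T k : Ω)
          ≤ D.nu i₀ (T k : Ω) * 1 :=
            mul_le_mul_of_nonneg_left (Finset.prod_le_one (fun i _ => (D.nu i).nonneg _)
              (fun i _ => hb k i)) ((D.nu i₀).nonneg _)
        _ < 1 := by rw [mul_one]; exact hsmall k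
    linarith
  -- (d)
  have hRne : (⟨R i₀, H.RR i₀ hi₀⟩ : D.K) ≠ 0 := by
    intro h
    have h1 : R i₀ = 0 := congrArg (fun z : D.K => (z : Ω)) h
    have h2 := H.s1 i₀ hi₀
    rw [h1, map_zero] at h2
    exact (Real.exp_pos (lam i₀)).ne h2
  have hRone : D.nu i₀ ((⟨R i₀, H.RR i₀ hi₀⟩ : D.K) : Ω) ≠ 1 := by
    intro h
    have h2 : Real.exp (lam i₀) = 1 := (H.s1 i₀ hi₀).symm.trans h
    have h3 : Real.exp (lam i₀) = Real.exp 0 := by rw [h2, Real.exp_zero]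
    exact (H.l1 i₀ hi₀).ne' (Real.exp_injective h3)
  obtain ⟨k, hk⟩ := hDBD2 i₀ _ hRne hRone
  have h1 := hc k i₀ hi₀
  have h2 := hsize i₀ hi₀ (δ k ⟨R i₀, H.RR i₀ hi₀⟩)
  have h3 : ν i₀ (δ k ⟨R i₀, H.RR i₀ hi₀⟩) = Real.exp (lam i₀) := by
    rw [hνe, hk]
    exact H.s1 i₀ hi₀
  rw [hT0 k, zero_sub, AbsoluteValue.map_neg, h2, h3, ← Real.exp_add] at h1
  have h4 := Real.exp_lt_exp.1 h1
  linarith

end Pool.Agent.Helper28.HZ
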